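import Mathlib

set_option autoImplicit false

open scoped Pointwise
open Set Function

namespace Pool.Agent.H1R3.Canc

/-- A family `𝒜` of subsets of `X` is invariant under all translations of `X`. -/
def TransInvariant {X : Type*} [AddCommGroup X] (𝒜 : Set (Set X)) : Prop :=
  ∀ (t : X), ∀ A ∈ 𝒜, t +ᵥ A ∈ 𝒜

/-- `A ∼ B` with pieces in `𝒜`, under translations: `A = A_1 ⊔ … ⊔ A_k`, `B = B_1 ⊔ … ⊔ B_k`
with `A_i, B_i ∈ 𝒜` and `B_i = g_i + A_i`. -/
def Equidec {X : Type*} [AddCommGroup X] (𝒜 : Set (Set X)) (A B : Set X) : Prop :=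
  ∃ (k : ℕ) (C : Fin k → Set X) (g : Fin k → X),
    (∀ i, C i ∈ 𝒜) ∧ (∀ i, g i +ᵥ C i ∈ 𝒜) ∧
    Pairwise (Disjoint on C) ∧ (⋃ i, C i) = A ∧
    Pairwise (Disjoint on fun i => g i +ᵥ C i) ∧ (⋃ i, g i +ᵥ C i) = B

/-- `n[A] = n[B]`: finitely many pieces `C_i × {j_i}` with `C_i ∈ 𝒜` partition
`A × {0, …, n-1}`, and the sets `(g_i + C_i) × {m_i}`, with `g_i + C_i ∈ 𝒜`, partition
`B × {0, …, n-1}`. -/
def MulEquidec {X : Type*} [AddCommGroup X] (𝒜 : Set (Set X)) (n : ℕ) (A B : Set X) : Prop :=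
  ∃ (k : ℕ) (C : Fin k → Set X) (g : Fin k → X) (j m : Fin k → Fin n),
    (∀ i, C i ∈ 𝒜) ∧ (∀ i, g i +ᵥ C i ∈ 𝒜) ∧
    Pairwise (Disjoint on fun i => C i ×ˢ ({j i} : Set (Fin n))) ∧
    (⋃ i, C i ×ˢ ({j i} : Set (Fin n))) = A ×ˢ (univ : Set (Fin n)) ∧
    Pairwise (Disjoint on fun i => (g i +ᵥ C i) ×ˢ ({m i} : Set (Fin n))) ∧
    (⋃ i, (g i +ᵥ C i) ×ˢ ({m i} : Set (Fin n))) = B ×ˢ (univ : Set (Fin n))

/-- The Cancellation Law for `(X, all translations of X, 𝒜)`. -/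
def CancellationLaw {X : Type*} [AddCommGroup X] (𝒜 : Set (Set X)) : Prop :=
  ∀ A ∈ 𝒜, ∀ B ∈ 𝒜, ∀ n : ℕ, 1 ≤ n → MulEquidec 𝒜 n A B → Equidec 𝒜 A B

section basic

variable {X : Type*} [AddCommGroup X] {𝒜 : Set (Set X)}

lemma mem_vadd_iff {t x : X} {A : Set X} : x ∈ t +ᵥ A ↔ x - t ∈ A := by
  rw [Set.mem_vadd_set_iff_neg_vadd_mem]
  simp [sub_eq_neg_add]

/-- Pointwise form of `MulEquidec` over an arbitrary finite index type. -/
lemma mulEquidec_of_pointwise (hinv : TransInvariant 𝒜) {n : ℕ} {A B : Set X}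
    {I : Type*} [Fintype I] (C : I → Set X) (g : I → X) (j m : I → Fin n)
    (hC : ∀ i, C i ∈ 𝒜)
    (s1 : ∀ i, C i ⊆ A) (s2 : ∀ x ∈ A, ∀ l, ∃! i, j i = l ∧ x ∈ C i)
    (t1 : ∀ i, ∀ x ∈ C i, g i + x ∈ B) (t2 : ∀ y ∈ B, ∀ l, ∃! i, m i = l ∧ y - g i ∈ C i) :
    MulEquidec 𝒜 n A B := by
  classical
  let e := (Fintype.equivFin I).symm
  refine ⟨Fintype.card I, C ∘ e, g ∘ e, j ∘ e, m ∘ e, fun i => hC _, fun i => hinv _ _ (hC _),
    ?_, ?_, ?_, ?_⟩
  · intro a b hab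
    rw [Function.onFun, Set.disjoint_left]
    rintro ⟨x, l⟩ ⟨hxa, hla⟩ ⟨hxb, hlb⟩
    simp only [comp_apply, mem_singleton_iff] at hxa hla hxb hlb
    apply hab
    apply e.injective
    obtain ⟨i, _, hi⟩ := s2 x (s1 _ hxa) l
    rw [hi (e a) ⟨hla.symm, hxa⟩, hi (e b) ⟨hlb.symm, hxb⟩]
  · ext ⟨x, l⟩
    simp only [mem_iUnion, mem_prod, comp_apply, mem_singleton_iff, mem_univ, and_true]
    constructor
    · rintro ⟨i, hi, _⟩
      exact s1 _ hi
    · intro hx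
      obtain ⟨i, ⟨hi1, hi2⟩, _⟩ := s2 x hx l
      exact ⟨e.symm i, by simpa using hi2, by simpa using hi1.symm⟩
  · intro a b hab
    rw [Function.onFun, Set.disjoint_left]
    rintro ⟨x, l⟩ ⟨hxa, hla⟩ ⟨hxb, hlb⟩
    simp only [comp_apply, mem_singleton_iff, mem_vadd_iff] at hxa hla hxb hlb
    apply hab
    apply e.injective
    have hxB : x ∈ B := by
      have := t1 _ _ hxa
      simpa using this
    obtain ⟨i, _, hi⟩ := t2 x hxB l
    rw [hi (e a) ⟨hla.symm, hxa⟩, hi (e b) ⟨hlb.symm, hxb⟩]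
  · ext ⟨x, l⟩
    simp only [mem_iUnion, mem_prod, comp_apply, mem_singleton_iff, mem_univ, and_true,
      mem_vadd_iff]
    constructor
    · rintro ⟨i, hi, _⟩
      have := t1 _ _ hi
      simpa using this
    · intro hx
      obtain ⟨i, ⟨hi1, hi2⟩, _⟩ := t2 x hx l
      exact ⟨e.symm i, by simpa using hi2, by simpa using hi1.symm⟩

/-- Pointwise form of `Equidec` over an arbitrary finite index type. -/
lemma equidec_of_pointwise (hinv : TransInvariant 𝒜) {A B : Set X}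
    {I : Type*} [Fintype I] (C : I → Set X) (g : I → X)
    (hC : ∀ i, C i ∈ 𝒜)
    (s1 : ∀ i, C i ⊆ A) (s2 : ∀ x ∈ A, ∃! i, x ∈ C i)
    (t1 : ∀ i, ∀ x ∈ C i, g i + x ∈ B) (t2 : ∀ y ∈ B, ∃! i, y - g i ∈ C i) :
    Equidec 𝒜 A B := by
  classical
  let e := (Fintype.equivFin I).symm
  refine ⟨Fintype.card I, C ∘ e, g ∘ e, fun i => hC _, fun i => hinv _ _ (hC _),
    ?_, ?_, ?_, ?_⟩
  · intro a b hab
    rw [Function.onFun, Set.disjoint_left]
    intro x hxa hxb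
    simp only [comp_apply] at hxa hxb
    apply hab
    apply e.injective
    obtain ⟨i, _, hi⟩ := s2 x (s1 _ hxa)
    rw [hi (e a) hxa, hi (e b) hxb]
  · ext x
    simp only [mem_iUnion, comp_apply]
    constructor
    · rintro ⟨i, hi⟩
      exact s1 _ hi
    · intro hx
      obtain ⟨i, hi1, _⟩ := s2 x hx
      exact ⟨e.symm i, by simpa using hi1⟩
  · intro a b hab
    rw [Function.onFun, Set.disjoint_left]
    intro x hxa hxb
    simp only [comp_apply, mem_vadd_iff] at hxa hxb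
    apply hab
    apply e.injective
    have hxB : x ∈ B := by
      have := t1 _ _ hxa
      simpa using this
    obtain ⟨i, _, hi⟩ := t2 x hxB
    rw [hi (e a) hxa, hi (e b) hxb]
  · ext x
    simp only [mem_iUnion, comp_apply, mem_vadd_iff]
    constructor
    · rintro ⟨i, hi⟩
      have := t1 _ _ hi
      simpa using this
    · intro hx
      obtain ⟨i, hi1, _⟩ := t2 x hx
      exact ⟨e.symm i, by simpa using hi1⟩

end basic

end Pool.Agent.H1R3.Canc
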