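import Pool.Agent.H1R3.Canc.Walls

set_option autoImplicit false
set_option linter.unusedSimpArgs false

open scoped Pointwise
open Set Function MeasureTheory

namespace Pool.Agent.H1R3.Canc

lemma C_mem (i : Fin 10) : C i ∈ Alg := by
  apply mem_Alg_of_pattern
  intro x y x' y' z h
  have e0 : |(0 : ℤ)| ≤ 1 := by norm_num
  have e1 : |(1 : ℤ)| ≤ 1 := by norm_num
  have e2 : |(-1 : ℤ)| ≤ 1 := by norm_num
  rcases h with h | h
  · have h00 := h 0 0 e0 e0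
    have h01 := h 0 1 e0 e1
    have h10 := h 1 0 e1 e0
    have h11 := h 1 1 e1 e1
    have hm0 := h (-1) 0 e2 e0
    have hm1 := h (-1) 1 e2 e1
    have h0m := h 0 (-1) e0 e2
    have h1m := h 1 (-1) e1 e2
    simp only [add_zero] at h00 h01 h10 h11 hm0 hm1 h0m h1m
    simp only [← sub_eq_add_neg] at h00 h01 h10 h11 hm0 hm1 h0m h1m
    fin_cases i <;>
      simp only [C, U, V, A, Fin.mk_zero, Fin.mk_one, Fin.reduceFinMk, mem_ofPred_eq,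
        sub_add_cancel, h00, h01, h10, h11, hm0, hm1, h0m, h1m]
  · have h00 := h 0 0 e0 e0
    have h01 := h 0 1 e0 e1
    have h10 := h 1 0 e1 e0
    have h11 := h 1 1 e1 e1
    have hm0 := h (-1) 0 e2 e0
    have hm1 := h (-1) 1 e2 e1
    have h0m := h 0 (-1) e0 e2
    have h1m := h 1 (-1) e1 e2
    simp only [add_zero] at h00 h01 h10 h11 hm0 hm1 h0m h1m
    simp only [← sub_eq_add_neg] at h00 h01 h10 h11 hm0 hm1 h0m h1m
    fin_cases i <;>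
      simp only [C, U, V, A, Fin.mk_zero, Fin.mk_one, Fin.reduceFinMk, mem_ofPred_eq,
        sub_add_cancel, h00, h01, h10, h11, hm0, hm1, h0m, h1m, not_iff_not]

lemma A'_mem : A' ∈ Alg := by
  have : A' = C 2 ∪ (C 0 ∪ C 1) := by
    ext ⟨x, y, z⟩; simp [A', C]
  rw [this]
  exact isSetAlgebra_Alg.union_mem (C_mem 2) (isSetAlgebra_Alg.union_mem (C_mem 0) (C_mem 1))

lemma B'_mem : B' ∈ Alg := by
  have hB : {q : ℤ × ℤ × ℤ | q.2.2 = 0 ∧ B q.1 q.2.1} ∈ Alg := by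
    apply mem_Alg_of_pattern
    intro x y x' y' z h
    have e0 : |(0 : ℤ)| ≤ 1 := by norm_num
    have e1 : |(1 : ℤ)| ≤ 1 := by norm_num
    rcases h with h | h
    · have h00 := h 0 0 e0 e0
      have h01 := h 0 1 e0 e1
      have h10 := h 1 0 e1 e0
      have h11 := h 1 1 e1 e1
      simp only [add_zero] at h00 h01 h10 h11
      simp only [B, mem_ofPred_eq, h00, h01, h10, h11]
    · have h00 := h 0 0 e0 e0
      have h01 := h 0 1 e0 e1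
      have h10 := h 1 0 e1 e0
      have h11 := h 1 1 e1 e1
      simp only [add_zero] at h00 h01 h10 h11
      simp only [B, mem_ofPred_eq, h00, h01, h10, h11, not_iff_not]
  have : B' = {q : ℤ × ℤ × ℤ | q.2.2 = 0 ∧ B q.1 q.2.1} ∪ (C 0 ∪ C 1) := by
    ext ⟨x, y, z⟩; simp [B', C]
  rw [this]
  exact isSetAlgebra_Alg.union_mem hB (isSetAlgebra_Alg.union_mem (C_mem 0) (C_mem 1))

lemma s1 (i : Fin 10) : C i ⊆ A' := by
  rintro ⟨x, y, z⟩ h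
  fin_cases i <;> simp [C, A'] at h ⊢ <;> tauto

lemma s2 : ∀ q ∈ A', ∀ l, ∃! i, js i = l ∧ q ∈ C i := by
  rintro ⟨x, y, z⟩ h l
  rcases h with ⟨hz, h⟩ | ⟨hz, h⟩ | ⟨hz, h⟩ <;> simp only at hz h <;> subst hz
  · fin_cases l
    · refine ⟨2, ⟨rfl, ⟨rfl, h⟩⟩, ?_⟩
      rintro i ⟨hi1, hi2⟩
      fin_cases i <;> simp [js, C] at hi1 hi2 ⊢
    · refine ⟨3, ⟨rfl, ⟨rfl, h⟩⟩, ?_⟩
      rintro i ⟨hi1, hi2⟩
      fin_cases i <;> simp [js, C] at hi1 hi2 ⊢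
  · fin_cases l
    · refine ⟨0, ⟨rfl, ⟨rfl, h⟩⟩, ?_⟩
      rintro i ⟨hi1, hi2⟩
      fin_cases i <;> simp [js, C] at hi1 hi2 ⊢
    · by_cases h1 : U (x - 1) y
      · refine ⟨4, ⟨rfl, ⟨rfl, h, h1⟩⟩, ?_⟩
        rintro i ⟨hi1, hi2⟩
        fin_cases i <;> simp [js, C, h1] at hi1 hi2 ⊢
      · by_cases h2 : V (x - 1) y
        · refine ⟨5, ⟨rfl, ⟨rfl, h, h1, h2⟩⟩, ?_⟩
          rintro i ⟨hi1, hi2⟩
          fin_cases i <;> simp [js, C, h1, h2] at hi1 hi2 ⊢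
        · refine ⟨6, ⟨rfl, ⟨rfl, h, h1, h2⟩⟩, ?_⟩
          rintro i ⟨hi1, hi2⟩
          fin_cases i <;> simp [js, C, h1, h2] at hi1 hi2 ⊢
  · fin_cases l
    · refine ⟨1, ⟨rfl, ⟨rfl, h⟩⟩, ?_⟩
      rintro i ⟨hi1, hi2⟩
      fin_cases i <;> simp [js, C] at hi1 hi2 ⊢
    · by_cases h1 : V x (y - 1)
      · refine ⟨7, ⟨rfl, ⟨rfl, h, h1⟩⟩, ?_⟩
        rintro i ⟨hi1, hi2⟩
        fin_cases i <;> simp [js, C, h1] at hi1 hi2 ⊢
      · by_cases h2 : U x (y - 1)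
        · refine ⟨8, ⟨rfl, ⟨rfl, h, h1, h2⟩⟩, ?_⟩
          rintro i ⟨hi1, hi2⟩
          fin_cases i <;> simp [js, C, h1, h2] at hi1 hi2 ⊢
        · refine ⟨9, ⟨rfl, ⟨rfl, h, h1, h2⟩⟩, ?_⟩
          rintro i ⟨hi1, hi2⟩
          fin_cases i <;> simp [js, C, h1, h2] at hi1 hi2 ⊢

lemma t1 (i : Fin 10) : ∀ q ∈ C i, gs i + q ∈ B' := by
  rintro ⟨x, y, z⟩ h
  have hx : (-1 : ℤ) + x = x - 1 := by ring
  have hy : (-1 : ℤ) + y = y - 1 := by ring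
  fin_cases i
  · simp [C, B', gs] at h ⊢; tauto
  · simp [C, B', gs] at h ⊢; tauto
  · simp [C, B', gs] at h ⊢
    obtain ⟨rfl, h⟩ := h
    simp [A, U, V] at h ⊢; tauto
  · simp [C, B', gs] at h ⊢
    obtain ⟨rfl, h⟩ := h
    simp [A, U, V] at h ⊢; tauto
  · simp [C, B', gs, hx] at h ⊢
    obtain ⟨rfl, h1, h2⟩ := h
    simp [h2]
  · simp [C, B', gs, hx] at h ⊢
    obtain ⟨rfl, h1, h2, h3⟩ := h
    simp [h3]
  · simp [C, B', gs, hx] at h ⊢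
    obtain ⟨rfl, h1, h2, h3⟩ := h
    simp [B, U, V] at h1 h2 h3 ⊢; tauto
  · simp [C, B', gs, hy] at h ⊢
    obtain ⟨rfl, h1, h2⟩ := h
    simp [h2]
  · simp [C, B', gs, hy] at h ⊢
    obtain ⟨rfl, h1, h2, h3⟩ := h
    simp [h3]
  · simp [C, B', gs, hy] at h ⊢
    obtain ⟨rfl, h1, h2, h3⟩ := h
    simp [B, U, V] at h1 h2 h3 ⊢; tauto

lemma t2 : ∀ q ∈ B', ∀ l, ∃! i, ms i = l ∧ q - gs i ∈ C i := by
  rintro ⟨x, y, z⟩ h l
  rcases h with ⟨hz, h⟩ | ⟨hz, h⟩ | ⟨hz, h⟩ <;> simp only at hz h <;> subst hz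
  · fin_cases l
    · refine ⟨6, ⟨rfl, ?_⟩, ?_⟩
      · simp [gs, C]
        simp [B, U, V] at h ⊢
        tauto
      · rintro i ⟨hi1, hi2⟩
        fin_cases i <;> simp [ms, C, gs] at hi1 hi2 ⊢
    · refine ⟨9, ⟨rfl, ?_⟩, ?_⟩
      · simp [gs, C]
        simp [B, U, V] at h ⊢
        tauto
      · rintro i ⟨hi1, hi2⟩
        fin_cases i <;> simp [ms, C, gs] at hi1 hi2 ⊢
  · fin_cases l
    · refine ⟨0, ⟨rfl, by simpa [gs, C] using h⟩, ?_⟩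
      rintro i ⟨hi1, hi2⟩
      fin_cases i <;> simp [ms, C, gs] at hi1 hi2 ⊢
    · by_cases h1 : U (x + 1) y
      · refine ⟨4, ⟨rfl, by simpa [gs, C, h1] using h⟩, ?_⟩
        rintro i ⟨hi1, hi2⟩
        fin_cases i <;> simp [ms, C, gs, h1] at hi1 hi2 ⊢
        · simp [A, U] at hi2 h1 h; tauto
        · simp [V, U] at hi2 h1 h; tauto
      · by_cases h2 : V x y
        · refine ⟨2, ⟨rfl, ?_⟩, ?_⟩
          · simp [gs, C]
            simp [A, U, V] at h h1 h2 ⊢; tauto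
          · rintro i ⟨hi1, hi2⟩
            fin_cases i <;> simp [ms, C, gs, h1, h2] at hi1 hi2 ⊢
        · refine ⟨8, ⟨rfl, ?_⟩, ?_⟩
          · simp [gs, C]
            simp [U, V] at h h1 h2 ⊢; tauto
          · rintro i ⟨hi1, hi2⟩
            fin_cases i <;> simp [ms, C, gs, h1, h2] at hi1 hi2 ⊢
            simp [A, V] at hi2 h2; tauto
  · fin_cases l
    · refine ⟨1, ⟨rfl, by simpa [gs, C] using h⟩, ?_⟩
      rintro i ⟨hi1, hi2⟩
      fin_cases i <;> simp [ms, C, gs] at hi1 hi2 ⊢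
    · by_cases h1 : V x (y + 1)
      · refine ⟨7, ⟨rfl, by simpa [gs, C, h1] using h⟩, ?_⟩
        rintro i ⟨hi1, hi2⟩
        fin_cases i <;> simp [ms, C, gs, h1] at hi1 hi2 ⊢
        · simp [A, V] at hi2 h1 h; tauto
        · simp [V, U] at hi2 h1 h; tauto
      · by_cases h2 : U x y
        · refine ⟨3, ⟨rfl, ?_⟩, ?_⟩
          · simp [gs, C]
            simp [A, U, V] at h h1 h2 ⊢; tauto
          · rintro i ⟨hi1, hi2⟩
            fin_cases i <;> simp [ms, C, gs, h1, h2] at hi1 hi2 ⊢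
        · refine ⟨5, ⟨rfl, ?_⟩, ?_⟩
          · simp [gs, C]
            simp [U, V] at h h1 h2 ⊢; tauto
          · rintro i ⟨hi1, hi2⟩
            fin_cases i <;> simp [ms, C, gs, h1, h2] at hi1 hi2 ⊢
            simp [A, U] at hi2 h2; tauto

lemma mulEquidec_A'_B' : MulEquidec Alg 2 A' B' :=
  mulEquidec_of_pointwise transInvariant_Alg C gs js ms C_mem s1 s2 t1 t2

end Pool.Agent.H1R3.Canc
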