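import Pool.Agent.H1R3.Canc.Parity
import Pool.Agent.H1R3.Canc.Pieces

set_option autoImplicit false
set_option linter.unusedSimpArgs false

open scoped Pointwise
open Set Function MeasureTheory

namespace Pool.Agent.H1R3.Canc

lemma cnt_x (n : ℕ) (E : Set (ℤ × ℤ)) (r t : ℤ) (hE : Loc2 r E) (hr : 0 ≤ r) (s : ℤ)
    (h : |s| + |t| + r + 2 ≤ 4 ^ n) : cnt n E s t = cnt n E 0 t := by
  induction s using Int.induction_on with
  | zero => rfl
  | succ i ih =>
    have e1 : |((i : ℤ) + 1)| = i + 1 := abs_of_nonneg (by positivity)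
    have e2 : |(i : ℤ)| = i := abs_of_nonneg (by positivity)
    rw [e1] at h
    rw [cnt_step_x n E r i t hE hr (by rw [e2]; linarith), ih (by rw [e2]; linarith)]
  | pred i ih =>
    have e1 : |(-(i : ℤ) - 1)| = i + 1 := by
      rw [show (-(i : ℤ) - 1) = -(i + 1) by ring, abs_neg]; exact abs_of_nonneg (by positivity)
    have e2 : |(-(i : ℤ))| = i := by rw [abs_neg]; exact abs_of_nonneg (by positivity)
    rw [e1] at h
    have := cnt_step_x n E r (-(i : ℤ) - 1) t hE hr (by rw [e1]; linarith)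
    rw [sub_add_cancel] at this
    rw [← this, ih (by rw [e2]; linarith)]

lemma cnt_y (n : ℕ) (E : Set (ℤ × ℤ)) (r : ℤ) (hE : Loc2 r E) (hr : 0 ≤ r) (t : ℤ)
    (h : |t| + r + 2 ≤ 4 ^ n) : cnt n E 0 t = cnt n E 0 0 := by
  induction t using Int.induction_on with
  | zero => rfl
  | succ i ih =>
    have e1 : |((i : ℤ) + 1)| = i + 1 := abs_of_nonneg (by positivity)
    have e2 : |(i : ℤ)| = i := abs_of_nonneg (by positivity)
    rw [e1] at h
    rw [cnt_step_y n E r 0 i hE hr (by rw [e2]; simp; linarith), ih (by rw [e2]; linarith)]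
  | pred i ih =>
    have e1 : |(-(i : ℤ) - 1)| = i + 1 := by
      rw [show (-(i : ℤ) - 1) = -(i + 1) by ring, abs_neg]; exact abs_of_nonneg (by positivity)
    have e2 : |(-(i : ℤ))| = i := by rw [abs_neg]; exact abs_of_nonneg (by positivity)
    rw [e1] at h
    have := cnt_step_y n E r 0 (-(i : ℤ) - 1) hE hr (by rw [e1]; simp; linarith)
    rw [sub_add_cancel] at this
    rw [← this, ih (by rw [e2]; linarith)]

lemma cnt_const (n : ℕ) (E : Set (ℤ × ℤ)) (r : ℤ) (hE : Loc2 r E) (hr : 0 ≤ r) (s t : ℤ)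
    (h : |s| + |t| + r + 2 ≤ 4 ^ n) : cnt n E s t = cnt n E 0 0 := by
  rw [cnt_x n E r t hE hr s h, cnt_y n E r hE hr t (by have := abs_nonneg s; linarith)]

/-- horizontal slice -/
def sl (C : Set (ℤ × ℤ × ℤ)) (z : ℤ) : Set (ℤ × ℤ) := {p | (p.1, p.2, z) ∈ C}

lemma cnt_shift (n : ℕ) (C : Set (ℤ × ℤ × ℤ)) (a b c z : ℤ) :
    cnt n (sl ((a, b, c) +ᵥ C) z) 0 0 = cnt n (sl C (z - c)) (-a) (-b) := by
  classical
  unfold cnt
  simp only [add_zero]
  have h1 : ∀ (p q d : ℤ) (f : ℤ → ZMod 2),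
      ∑ x ∈ Finset.Ico p q, f x = ∑ x ∈ Finset.Ico (p + -d) (q + -d), f (x + d) := by
    intro p q d f
    rw [Finset.sum_Ico_add', neg_add_cancel_right, neg_add_cancel_right]
  rw [h1 _ _ a]
  refine Finset.sum_congr rfl fun x _ => ?_
  rw [h1 _ _ b]
  refine Finset.sum_congr rfl fun y _ => ?_
  have : (x + a, y + b) ∈ sl ((a, b, c) +ᵥ C) z ↔ (x, y) ∈ sl C (z - c) := by
    unfold sl
    show (x + a, y + b, z) ∈ (a, b, c) +ᵥ C ↔ _
    rw [mem_vadd_iff]
    simp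
  simp only [this]

/-- total count -/
noncomputable def tau (n : ℕ) (C : Set (ℤ × ℤ × ℤ)) : ZMod 2 := ∑ᶠ z : ℤ, cnt n (sl C z) 0 0

lemma Loc.sl {r : ℤ} {C : Set (ℤ × ℤ × ℤ)} (h : Loc r C) (z : ℤ) : Loc2 r (sl C z) :=
  fun x y x' y' hs => h x y x' y' z hs

lemma tau_shift (n : ℕ) (C : Set (ℤ × ℤ × ℤ)) (a b c r : ℤ) (hr : 0 ≤ r) (hC : Loc r C)
    (h : |a| + |b| + r + 2 ≤ 4 ^ n) : tau n ((a, b, c) +ᵥ C) = tau n C := by
  unfold tau
  have : ∀ z, cnt n (sl ((a, b, c) +ᵥ C) z) 0 0 = cnt n (sl C (Equiv.subRight c z)) 0 0 := by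
    intro z
    rw [cnt_shift, cnt_const n _ r (hC.sl _) hr (-a) (-b) (by simpa using h)]
    rfl
  rw [finsum_congr this]
  exact finsum_comp_equiv (Equiv.subRight c) (f := fun z => cnt n (sl C z) 0 0)

/-- levels 0, 1, 2 -/
def Lev (C : Set (ℤ × ℤ × ℤ)) : Prop := ∀ q ∈ C, 0 ≤ q.2.2 ∧ q.2.2 ≤ 2

lemma cnt_empty (n : ℕ) : cnt n ∅ 0 0 = 0 := by
  simp [cnt]

lemma Lev.finite_support {C : Set (ℤ × ℤ × ℤ)} (hC : Lev C) (n : ℕ) :
    (support fun z => cnt n (sl C z) 0 0).Finite := by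
  refine (Set.finite_Icc (0 : ℤ) 2).subset ?_
  intro z hz
  by_contra hcon
  apply hz
  have : sl C z = ∅ := by
    ext ⟨x, y⟩
    simp only [sl, mem_ofPred_eq, mem_empty_iff_false, iff_false]
    intro h
    exact hcon (hC _ h)
  simp only [this, cnt_empty]

lemma tau_iUnion (n : ℕ) {k : ℕ} (C : Fin k → Set (ℤ × ℤ × ℤ)) (hd : Pairwise (Disjoint on C))
    (hl : ∀ i, Lev (C i)) : tau n (⋃ i, C i) = ∑ i, tau n (C i) := by
  classical
  unfold tau
  rw [← finsum_sum_comm]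
  · refine finsum_congr fun z => ?_
    unfold cnt
    have h1 : ∀ x y : ℤ, (if (x, y) ∈ sl (⋃ i, C i) z then (1 : ZMod 2) else 0) =
        ∑ i, if (x, y) ∈ sl (C i) z then (1 : ZMod 2) else 0 := by
      intro x y
      by_cases h : (x, y) ∈ sl (⋃ i, C i) z
      · rw [if_pos h]
        have h' : (x, y, z) ∈ ⋃ i, C i := h
        obtain ⟨i, hi⟩ := mem_iUnion.mp h'
        rw [Finset.sum_eq_single i, if_pos (show (x, y) ∈ sl (C i) z from hi)]
        · intro j _ hj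
          rw [if_neg]
          intro hj'
          exact (Set.disjoint_left.mp (hd hj)) hj' hi
        · simp
      · rw [if_neg h, eq_comm]
        apply Finset.sum_eq_zero
        intro i _
        rw [if_neg]
        intro hi
        exact h (mem_iUnion.mpr ⟨i, hi⟩)
    simp only [h1]
    symm
    rw [Finset.sum_comm]
    refine Finset.sum_congr rfl fun x _ => ?_
    rw [Finset.sum_comm]
  · intro i _
    exact (hl i).finite_support n

lemma tau_union (n : ℕ) (C D : Set (ℤ × ℤ × ℤ)) (hd : Disjoint C D) (hC : Lev C) (hD : Lev D) :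
    tau n (C ∪ D) = tau n C + tau n D := by
  have h := tau_iUnion n ![C, D] (by
    intro i j hij
    fin_cases i <;> fin_cases j <;> simp [Function.onFun] at hij ⊢
    · exact hd
    · exact hd.symm) (by
    intro i
    fin_cases i
    · exact hC
    · exact hD)
  have h2 : (⋃ i, (![C, D] : Fin 2 → Set (ℤ × ℤ × ℤ)) i) = C ∪ D := by
    ext x
    simp [mem_iUnion, Fin.exists_fin_two]
  rw [h2] at h
  rw [h]
  simp

/-- the one-level sets -/
def lvl0 (P : ℤ → ℤ → Prop) : Set (ℤ × ℤ × ℤ) := {q | q.2.2 = 0 ∧ P q.1 q.2.1}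

lemma tau_lvl0 (n : ℕ) (P : ℤ → ℤ → Prop) :
    tau n (lvl0 P) = cnt n {p | P p.1 p.2} 0 0 := by
  unfold tau
  rw [finsum_eq_single _ (0 : ℤ)]
  · congr 1
    ext ⟨x, y⟩
    simp [sl, lvl0]
  · intro z hz
    have : sl (lvl0 P) z = ∅ := by
      ext ⟨x, y⟩
      simp [sl, lvl0, hz]
    rw [this, cnt_empty]

lemma cnt_A (n : ℕ) : cnt n {p | A p.1 p.2} 0 0 = 1 := by
  classical
  have hL : (0 : ℤ) < 4 ^ n := by positivity
  have key : ∀ x ∈ Finset.Ico (3 * 4 ^ n + 0 : ℤ) (7 * 4 ^ n + 0),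
      ∀ y ∈ Finset.Ico (4 ^ n + 0 : ℤ) (3 * 4 ^ n + 0),
      (A x y ↔ (x = 6 * 4 ^ n - 1 ∧ y = 2 * 4 ^ n - 1)) := by
    intro x hx y hy
    have hx := Finset.mem_Ico.mp hx
    have hy := Finset.mem_Ico.mp hy
    simp only [add_zero] at hx hy
    unfold A
    rw [W_iff n x y (by linarith) (by linarith),
      W_iff n (x + 1) y (by linarith) (by linarith),
      W_iff n x (y + 1) (by linarith) (by linarith),
      W_iff n (x + 1) (y + 1) (by linarith) (by linarith)]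
    generalize (4 : ℤ) ^ n = L at *
    omega
  unfold cnt
  rw [Finset.sum_eq_single (6 * 4 ^ n - 1), Finset.sum_eq_single (2 * 4 ^ n - 1)]
  · rw [if_pos]
    exact (key _ (Finset.mem_Ico.mpr ⟨by linarith, by linarith⟩) _
      (Finset.mem_Ico.mpr ⟨by linarith, by linarith⟩)).mpr
      ⟨rfl, rfl⟩
  · intro y hy hne
    rw [if_neg]
    intro h
    exact hne ((key _ (Finset.mem_Ico.mpr ⟨by linarith, by linarith⟩) _ hy).mp h).2
  · intro h
    exfalso
    apply h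
    exact Finset.mem_Ico.mpr ⟨by linarith, by linarith⟩
  · intro x hx hne
    apply Finset.sum_eq_zero
    intro y hy
    rw [if_neg]
    intro h
    exact hne ((key _ hx _ hy).mp h).1
  · intro h
    exfalso
    apply h
    exact Finset.mem_Ico.mpr ⟨by linarith, by linarith⟩

lemma cnt_B (n : ℕ) : cnt n {p | B p.1 p.2} 0 0 = 0 := by
  classical
  have hL : (0 : ℤ) < 4 ^ n := by positivity
  unfold cnt
  apply Finset.sum_eq_zero
  intro x hx
  apply Finset.sum_eq_zero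
  intro y hy
  rw [if_neg]
  have hx := Finset.mem_Ico.mp hx
  have hy := Finset.mem_Ico.mp hy
  simp only [add_zero] at hx hy
  show ¬ B x y
  unfold B
  rw [W_iff n x y (by linarith) (by linarith),
    W_iff n (x + 1) y (by linarith) (by linarith),
    W_iff n x (y + 1) (by linarith) (by linarith),
    W_iff n (x + 1) (y + 1) (by linarith) (by linarith)]
  generalize (4 : ℤ) ^ n = L at *
  omega

lemma not_equidec : ¬ Equidec Alg A' B' := by
  classical
  rintro ⟨k, D, g, hD, hgD, hd, hDA, hd', hDB⟩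
  choose r hr hloc using hD
  -- a large scale
  obtain ⟨n, hn⟩ : ∃ n : ℕ, ∀ i, |(g i).1| + |(g i).2.1| + r i + 2 ≤ 4 ^ n := by
    obtain ⟨n, hn⟩ := pow_unbounded_of_one_lt
      (∑ i, (|(g i).1| + |(g i).2.1| + r i + 2)) (show (1 : ℤ) < 4 by norm_num)
    refine ⟨n, fun i => ?_⟩
    refine le_trans ?_ hn.le
    exact Finset.single_le_sum (f := fun i => |(g i).1| + |(g i).2.1| + r i + 2)
      (fun j _ => by have := hr j; positivity) (Finset.mem_univ i)
  have levA : Lev A' := by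
    rintro ⟨x, y, z⟩ h
    rcases h with ⟨h, _⟩ | ⟨h, _⟩ | ⟨h, _⟩ <;> simp only at h ⊢ <;> omega
  have levB : Lev B' := by
    rintro ⟨x, y, z⟩ h
    rcases h with ⟨h, _⟩ | ⟨h, _⟩ | ⟨h, _⟩ <;> simp only at h ⊢ <;> omega
  have h1 : tau n A' = tau n B' := by
    rw [← hDA, ← hDB, tau_iUnion n D hd (fun i q hq => levA q (hDA ▸ mem_iUnion.mpr ⟨i, hq⟩)),
      tau_iUnion n _ hd' (fun i q hq => levB q (hDB ▸ mem_iUnion.mpr ⟨i, hq⟩))]
    refine Finset.sum_congr rfl fun i _ => ?_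
    exact (tau_shift n (D i) _ _ _ (r i) (hr i) (hloc i) (hn i)).symm
  have hrest : Lev (C 0 ∪ C 1) := by
    rintro ⟨x, y, z⟩ h
    rcases h with ⟨h, _⟩ | ⟨h, _⟩ <;> simp only at h ⊢ <;> omega
  have levl : ∀ P, Lev (lvl0 P) := by
    rintro P ⟨x, y, z⟩ ⟨h, _⟩
    simp only at h ⊢; omega
  have hdis : ∀ P, Disjoint (lvl0 P) (C 0 ∪ C 1) := by
    intro P
    rw [Set.disjoint_left]
    rintro ⟨x, y, z⟩ ⟨h, _⟩ (⟨h', _⟩ | ⟨h', _⟩) <;> simp only at h h' <;> omega
  have hA : A' = lvl0 A ∪ (C 0 ∪ C 1) := by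
    ext ⟨x, y, z⟩; simp [A', C, lvl0]
  have hB : B' = lvl0 B ∪ (C 0 ∪ C 1) := by
    ext ⟨x, y, z⟩; simp [B', C, lvl0]
  rw [hA, hB, tau_union n _ _ (hdis _) (levl _) hrest, tau_union n _ _ (hdis _) (levl _) hrest,
    tau_lvl0, tau_lvl0, cnt_A, cnt_B] at h1
  have h2 : (1 : ZMod 2) = 0 := by linear_combination h1
  exact absurd h2 (by decide)

end Pool.Agent.H1R3.Canc
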