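import Pool.Agent.H1R3.Canc.Walls

set_option autoImplicit false
set_option linter.unusedSimpArgs false

open scoped Pointwise
open Set Function MeasureTheory

namespace Pool.Agent.H1R3.Canc

/-- In the region `2L ≤ x < 8L`, `L = 4^n`, the set `W` is just the `n`-th square. -/
lemma W_iff (n : ℕ) (x y : ℤ) (h1 : 2 * 4 ^ n ≤ x) (h2 : x < 8 * 4 ^ n) :
    W x y ↔ (4 * 4 ^ n ≤ x ∧ x < 6 * 4 ^ n ∧ 0 ≤ y ∧ y < 2 * 4 ^ n) := by
  constructor
  · rintro ⟨m, hm1, hm2, hm3, hm4⟩
    rcases lt_trichotomy m n with h | h | h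
    · exfalso
      have : (4 : ℤ) * 4 ^ m ≤ 4 ^ n := by
        rw [← pow_succ']
        exact pow_le_pow_right₀ (by norm_num) h
      have hp : (0 : ℤ) < 4 ^ m := by positivity
      linarith
    · subst h; exact ⟨hm1, hm2, hm3, hm4⟩
    · exfalso
      have : (4 : ℤ) * 4 ^ n ≤ 4 ^ m := by
        rw [← pow_succ']
        exact pow_le_pow_right₀ (by norm_num) h
      linarith
  · rintro ⟨hm1, hm2, hm3, hm4⟩
    exact ⟨n, hm1, hm2, hm3, hm4⟩

open Classical in
/-- number of points of a planar set in the window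
`[3L+s, 7L+s) × [L+t, 3L+t)`, modulo 2, for `L = 4^n`. -/
noncomputable def cnt (n : ℕ) (E : Set (ℤ × ℤ)) (s t : ℤ) : ZMod 2 :=
  ∑ x ∈ Finset.Ico (3 * 4 ^ n + s : ℤ) (7 * 4 ^ n + s), ∑ y ∈ Finset.Ico (4 ^ n + t : ℤ) (3 * 4 ^ n + t),
    if (x, y) ∈ E then 1 else 0

/-- planar locality -/
def Loc2 (r : ℤ) (E : Set (ℤ × ℤ)) : Prop :=
  ∀ x y x' y' : ℤ, Sim r x y x' y' → ((x, y) ∈ E ↔ (x', y') ∈ E)

lemma sum_Ico_const_even (a b : ℤ) (k : ℤ) (hk : b - a = 2 * k) (c : ZMod 2)
    (f : ℤ → ZMod 2) (hf : ∀ y ∈ Finset.Ico a b, f y = c) : ∑ y ∈ Finset.Ico a b, f y = 0 := by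
  rw [Finset.sum_congr rfl hf, Finset.sum_const, Int.card_Ico, hk]
  rcases le_or_gt 0 k with h | h
  · obtain ⟨m, rfl⟩ := Int.eq_ofNat_of_zero_le h
    have : (2 * (m : ℤ)).toNat = 2 * m := by omega
    rw [this, mul_nsmul, two_nsmul]
    have : c + c = 0 := CharTwo.add_self_eq_zero c
    simp [this]
  · have : (2 * k).toNat = 0 := by omega
    rw [this, zero_nsmul]

lemma sum_Ico_shift_left (f : ℤ → ZMod 2) (a b : ℤ) (h : a < b) :
    ∑ x ∈ Finset.Ico a b, f x + f a + f b = ∑ x ∈ Finset.Ico (a + 1) (b + 1), f x := by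
  have h1 : Finset.Ico a b = insert a (Finset.Ico (a + 1) b) := by
    ext x; simp; omega
  have h2 : Finset.Ico (a + 1) (b + 1) = insert b (Finset.Ico (a + 1) b) := by
    ext x; simp; omega
  rw [h1, h2, Finset.sum_insert (by simp), Finset.sum_insert (by simp)]
  have : f a + f a = 0 := CharTwo.add_self_eq_zero _
  linear_combination this

lemma cnt_step_x (n : ℕ) (E : Set (ℤ × ℤ)) (r s t : ℤ) (hE : Loc2 r E) (hr : 0 ≤ r)
    (h : |s| + |t| + r + 2 ≤ 4 ^ n) : cnt n E (s + 1) t = cnt n E s t := by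
  classical
  have hs := abs_le.mp (le_refl |s|)
  have ht := abs_le.mp (le_refl |t|)
  have hs0 := abs_nonneg s
  have ht0 := abs_nonneg t
  unfold cnt
  set L : ℤ := 4 ^ n with hL
  rw [← add_assoc (3 * L), ← add_assoc (7 * L), ← sum_Ico_shift_left _ _ _ (by linarith)]
  have key : ∀ x₀ : ℤ, (2 * L ≤ x₀ - r ∧ x₀ + r < 4 * L) ∨ (6 * L ≤ x₀ - r ∧ x₀ + r < 8 * L) →
      (∑ y ∈ Finset.Ico (L + t : ℤ) (3 * L + t), if (x₀, y) ∈ E then (1 : ZMod 2) else 0) = 0 := by
    intro x₀ hx₀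
    apply sum_Ico_const_even _ _ L (by ring) (if (x₀, L) ∈ E then 1 else 0)
    intro y _
    have : (x₀, y) ∈ E ↔ (x₀, L) ∈ E := by
      apply hE
      left
      intro u v hu hv
      have hu' := abs_le.mp hu
      rw [W_iff n _ _ (by rcases hx₀ with h | h <;> linarith) (by rcases hx₀ with h | h <;> linarith),
        W_iff n _ _ (by rcases hx₀ with h | h <;> linarith) (by rcases hx₀ with h | h <;> linarith)]
      rcases hx₀ with h | h <;> (constructor <;> rintro ⟨h1, h2, h3, h4⟩ <;> exfalso <;> linarith)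
    simp only [this]
  rw [key (3 * L + s) (Or.inl ⟨by linarith, by linarith⟩),
    key (7 * L + s) (Or.inr ⟨by linarith, by linarith⟩)]
  simp

lemma cnt_step_y (n : ℕ) (E : Set (ℤ × ℤ)) (r s t : ℤ) (hE : Loc2 r E) (hr : 0 ≤ r)
    (h : |s| + |t| + r + 2 ≤ 4 ^ n) : cnt n E s (t + 1) = cnt n E s t := by
  classical
  have hs := abs_le.mp (le_refl |s|)
  have ht := abs_le.mp (le_refl |t|)
  have hs0 := abs_nonneg s
  have ht0 := abs_nonneg t
  unfold cnt
  set L : ℤ := 4 ^ n with hL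
  rw [Finset.sum_comm, Finset.sum_comm (s := Finset.Ico (3 * L + s) (7 * L + s)) (t := Finset.Ico (L + t) (3 * L + t))]
  rw [← add_assoc L, ← add_assoc (3 * L), ← sum_Ico_shift_left _ _ _ (by linarith)]
  -- top row
  have top : (∑ x ∈ Finset.Ico (3 * L + s : ℤ) (7 * L + s),
      if (x, 3 * L + t) ∈ E then (1 : ZMod 2) else 0) = 0 := by
    apply sum_Ico_const_even _ _ (2 * L) (by ring) (if (3 * L, 3 * L + t) ∈ E then 1 else 0)
    intro x hx
    have hx := Finset.mem_Ico.mp hx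
    have : (x, 3 * L + t) ∈ E ↔ (3 * L, 3 * L + t) ∈ E := by
      apply hE
      left
      intro u v hu hv
      have hu' := abs_le.mp hu
      have hv' := abs_le.mp hv
      rw [W_iff n _ _ (by linarith) (by linarith), W_iff n _ _ (by linarith) (by linarith)]
      constructor <;> rintro ⟨h1, h2, h3, h4⟩ <;> exfalso <;> linarith
    simp only [this]
  -- bottom row
  have bot : (∑ x ∈ Finset.Ico (3 * L + s : ℤ) (7 * L + s),
      if (x, L + t) ∈ E then (1 : ZMod 2) else 0) = 0 := by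
    have hsplit : Finset.Ico (3 * L + s : ℤ) (7 * L + s) =
        Finset.Ico (3 * L + s : ℤ) (5 * L + s) ∪ Finset.Ico (5 * L + s : ℤ) (7 * L + s) := by
      rw [Finset.Ico_union_Ico_eq_Ico (by linarith) (by linarith)]
    rw [hsplit, Finset.sum_union (Finset.Ico_disjoint_Ico_consecutive _ _ _)]
    have h2 : (∑ x ∈ Finset.Ico (5 * L + s : ℤ) (7 * L + s),
        if (x, L + t) ∈ E then (1 : ZMod 2) else 0) =
        ∑ x ∈ Finset.Ico (3 * L + s : ℤ) (5 * L + s),
        if (x, L + t) ∈ E then (1 : ZMod 2) else 0 := by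
      rw [show (7 * L + s : ℤ) = (5 * L + s) + 2 * L by ring]
      conv_lhs => rw [show (5 * L + s : ℤ) = (3 * L + s) + 2 * L by ring]
      rw [show (3 * L + s + 2 * L + 2 * L : ℤ) = (5 * L + s) + 2 * L by ring]
      rw [← Finset.map_add_right_Ico, Finset.sum_map]
      refine Finset.sum_congr rfl fun x hx => ?_
      have hx := Finset.mem_Ico.mp hx
      simp only [addRightEmbedding_apply]
      have : (x + 2 * L, L + t) ∈ E ↔ (x, L + t) ∈ E := by
        apply hE
        right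
        intro u v hu hv
        have hu' := abs_le.mp hu
        have hv' := abs_le.mp hv
        rw [W_iff n _ _ (by linarith) (by linarith), W_iff n _ _ (by linarith) (by linarith)]
        constructor
        · rintro ⟨h1, h2, h3, h4⟩ ⟨h5, h6, h7, h8⟩
          linarith
        · intro hcon
          refine ⟨by linarith, ?_, by linarith, by linarith⟩
          by_contra hcon2
          apply hcon
          exact ⟨by linarith, by linarith, by linarith, by linarith⟩
      simp only [this]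
    rw [h2]
    exact CharTwo.add_self_eq_zero _
  rw [top, bot]
  simp

end Pool.Agent.H1R3.Canc
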