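import Mathlib

set_option autoImplicit false

open scoped Pointwise
open Set Function Topology

namespace Pool.Agent.H1R3.Canc

variable {X : Type*} [AddCommGroup X] [TopologicalSpace X] [IsTopologicalAddGroup X]
  [CompactSpace X] [T2Space X]

/-- In a compact abelian group which is not of bounded exponent, for every countable set `F`
there is `x` none of whose positive multiples lies in `F`. -/
lemma exists_nsmul_notMem (hX : ¬ ∃ n : ℕ, 0 < n ∧ ∀ x : X, n • x = 0) (F : Set X)
    (hF : F.Countable) : ∃ x : X, ∀ n : ℕ, 0 < n → n • x ∉ F := by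
  by_contra hcon
  push Not at hcon
  apply hX
  have : Countable F := hF.to_subtype
  let S : ℕ × F → Set X := fun p => {x : X | (p.1 + 1) • x = p.2}
  have hclosed : ∀ p, IsClosed (S p) := by
    intro p
    exact isClosed_eq (continuous_nsmul _) continuous_const
  have hunion : (⋃ p, S p) = univ := by
    rw [eq_univ_iff_forall]
    intro x
    obtain ⟨n, hn, hx⟩ := hcon x
    exact mem_iUnion.mpr ⟨(n - 1, ⟨n • x, hx⟩), by
      show (n - 1 + 1) • x = n • x
      rw [Nat.sub_add_cancel hn]⟩
  obtain ⟨⟨n, f⟩, hint⟩ := nonempty_interior_of_iUnion_of_closed hclosed hunion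
  obtain ⟨x₀, hx₀⟩ := hint
  -- the subgroup of elements killed by `n + 1` is open
  let N : AddSubgroup X := (nsmulAddMonoidHom (n + 1) : X →+ X).ker
  have hN : (N : Set X) ∈ 𝓝 (0 : X) := by
    have h1 : (fun y : X => x₀ + y) ⁻¹' (S (n, f)) ∈ 𝓝 (0 : X) := by
      have hc : Continuous (fun y : X => x₀ + y) := by fun_prop
      have ht := hc.tendsto 0
      rw [add_zero] at ht
      exact ht (mem_interior_iff_mem_nhds.mp hx₀)
    refine Filter.mem_of_superset h1 ?_
    intro y hy
    have hy' : (n + 1) • (x₀ + y) = f := hy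
    have hx'' : x₀ ∈ S (n, f) := interior_subset hx₀
    have hx' : (n + 1) • x₀ = f := hx''
    show (n + 1) • y = 0
    rw [nsmul_add, hx'] at hy'
    simpa using hy'
  have hopen : IsOpen (N : Set X) := AddSubgroup.isOpen_of_mem_nhds N hN
  have hfin : Finite (X ⧸ N) := AddSubgroup.quotient_finite_of_isOpen N hopen
  have hidx : N.index ≠ 0 := by
    have : N.FiniteIndex := AddSubgroup.finiteIndex_of_finite_quotient
    exact this.index_ne_zero
  refine ⟨(n + 1) * N.index, by positivity, fun x => ?_⟩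
  have h := N.nsmul_index_mem x
  have : (n + 1) • (N.index • x) = 0 := h
  rw [mul_nsmul', this]

/-- A compact abelian group which is not of bounded exponent contains `ℤ³`. -/
lemma exists_injective_int3 (hX : ¬ ∃ n : ℕ, 0 < n ∧ ∀ x : X, n • x = 0) :
    ∃ j : (ℤ × ℤ × ℤ) →+ X, Injective j := by
  obtain ⟨e₁, h₁⟩ := exists_nsmul_notMem hX {0} (countable_singleton _)
  obtain ⟨e₂, h₂⟩ := exists_nsmul_notMem hX (range fun a : ℤ => a • e₁) (countable_range _)
  obtain ⟨e₃, h₃⟩ := exists_nsmul_notMem hX (range fun p : ℤ × ℤ => p.1 • e₁ + p.2 • e₂)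
    (countable_range _)
  have key : ∀ (F : Set X) (hneg : ∀ x ∈ F, -x ∈ F) (e : X) (h : ∀ n : ℕ, 0 < n → n • e ∉ F)
      (c : ℤ), c • e ∈ F → c = 0 := by
    intro F hneg e h c hc
    by_contra hne
    rcases lt_or_gt_of_ne hne with hlt | hgt
    · obtain ⟨m, hm⟩ : ∃ m : ℕ, c = -(m : ℤ) := ⟨(-c).toNat, by omega⟩
      apply h m (by omega)
      have := hneg _ hc
      rw [hm, neg_smul, neg_neg, natCast_zsmul] at this
      exact this
    · obtain ⟨m, hm⟩ : ∃ m : ℕ, c = (m : ℤ) := ⟨c.toNat, by omega⟩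
      apply h m (by omega)
      rw [hm, natCast_zsmul] at hc
      exact hc
  let j : (ℤ × ℤ × ℤ) →+ X :=
    { toFun := fun p => p.1 • e₁ + p.2.1 • e₂ + p.2.2 • e₃
      map_zero' := by simp
      map_add' := by
        intro p q
        simp only [Prod.fst_add, Prod.snd_add, add_smul]
        abel }
  refine ⟨j, (injective_iff_map_eq_zero j).mpr ?_⟩
  rintro ⟨a, b, c⟩ h
  have h : a • e₁ + b • e₂ + c • e₃ = 0 := h
  have hc : c = 0 := by
    apply key _ _ e₃ h₃ c
    · exact ⟨(-a, -b), by simp only [neg_smul]; rw [← neg_add, neg_eq_iff_add_eq_zero]; exact h⟩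
    · rintro _ ⟨p, rfl⟩
      exact ⟨(-p.1, -p.2), by simp only [neg_smul, neg_add]⟩
  subst hc
  rw [zero_smul, add_zero] at h
  have hb : b = 0 := by
    apply key _ _ e₂ h₂ b
    · exact ⟨-a, by simp only [neg_smul]; rw [neg_eq_iff_add_eq_zero]; exact h⟩
    · rintro _ ⟨p, rfl⟩
      exact ⟨-p, by simp only [neg_smul]⟩
  subst hb
  rw [zero_smul, add_zero] at h
  have ha : a = 0 := by
    apply key _ _ e₁ h₁ a
    · exact h
    · rintro _ rfl
      simp
  subst ha
  rfl

end Pool.Agent.H1R3.Canc
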