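import Pool.Agent.H1R3.Canc.Defs

set_option autoImplicit false
set_option linter.unusedSimpArgs false

open scoped Pointwise
open Set Function MeasureTheory

namespace Pool.Agent.H1R3.Canc

/-- Two finite sets whose fibres over every class have equal cardinality admit a
class-preserving bijection. -/
lemma exists_equiv_fiber {S Q : Type*} [Finite S] (c : S → Q) (P R : Set S)
    (h : ∀ q, Nat.card {s : S // s ∈ P ∧ c s = q} = Nat.card {s : S // s ∈ R ∧ c s = q}) :
    ∃ β : P ≃ R, ∀ s, c (β s : S) = c (s : S) := by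
  classical
  let fP : P → Q := fun s => c s
  let fR : R → Q := fun s => c s
  have e : ∀ q, Nonempty ({s : P // fP s = q} ≃ {s : R // fR s = q}) := by
    intro q
    have h1 : Nat.card {s : P // fP s = q} = Nat.card {s : S // s ∈ P ∧ c s = q} :=
      Nat.card_congr (Equiv.subtypeSubtypeEquivSubtypeInter (· ∈ P) (fun s => c s = q))
    have h2 : Nat.card {s : R // fR s = q} = Nat.card {s : S // s ∈ R ∧ c s = q} :=
      Nat.card_congr (Equiv.subtypeSubtypeEquivSubtypeInter (· ∈ R) (fun s => c s = q))
    have h3 : Nat.card {s : P // fP s = q} = Nat.card {s : R // fR s = q} := by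
      rw [h1, h2, h q]
    exact Finite.card_eq.mp h3 |>.elim fun e => ⟨e⟩
  let e := fun q => (e q).some
  let β := (Equiv.sigmaFiberEquiv fP).symm.trans
    ((Equiv.sigmaCongrRight e).trans (Equiv.sigmaFiberEquiv fR))
  refine ⟨β, fun s => ?_⟩
  have : fR (β s) = fP s := by
    simp only [β, Equiv.trans_apply]
    exact ((e (fP s)) ⟨s, rfl⟩).2
  exact this

/-- The Cancellation Law for torsion groups and translation-invariant algebras. -/
theorem cancellation_of_torsion {X : Type*} [AddCommGroup X]
    (htor : ∀ x : X, ∃ n : ℕ, 0 < n ∧ n • x = 0) {𝒜 : Set (Set X)} (h𝒜 : IsSetAlgebra 𝒜)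
    (hinv : TransInvariant 𝒜) : CancellationLaw 𝒜 := by
  classical
  intro A hA B hB n hn hmul
  obtain ⟨k, C, g, js, ms, h1, h2, h3, h4, h5, h6⟩ := hmul
  -- the finite group generated by the translations
  let F : AddSubgroup X := AddSubgroup.closure (range g)
  have hFfg : AddGroup.FG F := AddGroup.closure_finite_fg (range g)
  have hFfin : Finite F := by
    apply AddCommGroup.finite_of_fg_isAddTorsion
    intro x
    obtain ⟨m, hm, hx⟩ := htor x
    rw [isOfFinAddOrder_iff_nsmul_eq_zero]
    exact ⟨m, hm, by ext; simpa using hx⟩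
  have hgF : ∀ i, g i ∈ F := fun i => AddSubgroup.subset_closure ⟨i, rfl⟩
  let gF : Fin k → F := fun i => ⟨g i, hgF i⟩
  -- signatures
  let E : Fin k ⊕ Bool → Set X := fun e => Sum.elim C (fun b => if b then A else B) e
  have hE : ∀ e, E e ∈ 𝒜 := by
    rintro (i | b)
    · exact h1 i
    · cases b
      · exact hB
      · exact hA
  let Sig := F → (Fin k ⊕ Bool) → Prop
  have hSigfin : Finite Sig := inferInstance
  let σ : X → Sig := fun x f e => x + f ∈ E e
  let act : F → Sig → Sig := fun h s f e => s (h + f) e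
  have act_σ : ∀ (h : F) (x : X), σ (x + h) = act h (σ x) := by
    intro h x
    funext f e
    simp only [σ, act, AddSubgroup.coe_add, add_assoc]
  have act_act : ∀ (h h' : F) (s : Sig), act h (act h' s) = act (h' + h) s := by
    intro h h' s
    funext f e
    simp only [act, add_assoc]
  have act_zero : ∀ s : Sig, act 0 s = s := by
    intro s
    funext f e
    simp only [act, zero_add]
  -- the orbit relation
  let rel : Setoid Sig :=
    { r := fun s s' => ∃ h : F, s' = act h s
      iseqv :=
        { refl := fun s => ⟨0, (act_zero s).symm⟩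
          symm := by
            rintro s s' ⟨h, rfl⟩
            exact ⟨-h, by rw [act_act, add_neg_cancel, act_zero]⟩
          trans := by
            rintro s s' s'' ⟨h, rfl⟩ ⟨h', rfl⟩
            exact ⟨h + h', by rw [act_act]⟩ } }
  let c : Sig → Quotient rel := fun s => Quotient.mk rel s
  have c_act : ∀ (h : F) (s : Sig), c (act h s) = c s := by
    intro h s
    exact (Quotient.sound (⟨h, rfl⟩ : rel.r s (act h s))).symm
  let RA : Set Sig := {s | s ∈ range σ ∧ s 0 (Sum.inr true)}
  let RB : Set Sig := {s | s ∈ range σ ∧ s 0 (Sum.inr false)}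
  -- pointwise counting of the pieces
  have cntA : ∀ x : X, (∑ i, if x ∈ C i then 1 else 0) = if x ∈ A then n else 0 := by
    intro x
    have hx : ∀ l : Fin n, (∑ i, if x ∈ C i ∧ js i = l then 1 else 0) = if x ∈ A then 1 else 0 := by
      intro l
      by_cases hxA : x ∈ A
      · rw [if_pos hxA]
        have : ((x, l) : X × Fin n) ∈ (⋃ i, C i ×ˢ ({js i} : Set (Fin n))) := by
          rw [h4]; exact ⟨hxA, trivial⟩
        obtain ⟨i, hi⟩ := mem_iUnion.mp this
        rw [Finset.sum_eq_single i, if_pos ⟨hi.1, hi.2.symm⟩]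
        · intro i' _ hne
          rw [if_neg]
          rintro ⟨ha, hb⟩
          exact Set.disjoint_left.mp (h3 hne) (show (x, l) ∈ C i' ×ˢ ({js i'} : Set (Fin n)) from
            ⟨ha, hb.symm⟩) hi
        · simp
      · rw [if_neg hxA]
        apply Finset.sum_eq_zero
        intro i _
        rw [if_neg]
        rintro ⟨ha, hb⟩
        have : ((x, l) : X × Fin n) ∈ A ×ˢ (univ : Set (Fin n)) := by
          rw [← h4]; exact mem_iUnion.mpr ⟨i, ha, hb.symm⟩
        exact hxA this.1
    have hsum : ∑ l : Fin n, (∑ i, if x ∈ C i ∧ js i = l then 1 else 0) =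
        (∑ i, if x ∈ C i then 1 else 0) := by
      rw [Finset.sum_comm]
      refine Finset.sum_congr rfl fun i _ => ?_
      by_cases h : x ∈ C i <;> simp [h]
    rw [← hsum, Finset.sum_congr rfl (fun l _ => hx l)]
    by_cases h : x ∈ A <;> simp [h]
  have cntB : ∀ x : X, (∑ i, if x - g i ∈ C i then 1 else 0) = if x ∈ B then n else 0 := by
    intro x
    have hx : ∀ l : Fin n, (∑ i, if x - g i ∈ C i ∧ ms i = l then 1 else 0) =
        if x ∈ B then 1 else 0 := by
      intro l
      by_cases hxB : x ∈ B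
      · rw [if_pos hxB]
        have : ((x, l) : X × Fin n) ∈ (⋃ i, (g i +ᵥ C i) ×ˢ ({ms i} : Set (Fin n))) := by
          rw [h6]; exact ⟨hxB, trivial⟩
        obtain ⟨i, hi⟩ := mem_iUnion.mp this
        rw [Finset.sum_eq_single i, if_pos ⟨mem_vadd_iff.mp hi.1, hi.2.symm⟩]
        · intro i' _ hne
          rw [if_neg]
          rintro ⟨ha, hb⟩
          exact Set.disjoint_left.mp (h5 hne)
            (show (x, l) ∈ (g i' +ᵥ C i') ×ˢ ({ms i'} : Set (Fin n)) from
            ⟨mem_vadd_iff.mpr ha, hb.symm⟩) hi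
        · simp
      · rw [if_neg hxB]
        apply Finset.sum_eq_zero
        intro i _
        rw [if_neg]
        rintro ⟨ha, hb⟩
        have : ((x, l) : X × Fin n) ∈ B ×ˢ (univ : Set (Fin n)) := by
          rw [← h6]; exact mem_iUnion.mpr ⟨i, mem_vadd_iff.mpr ha, hb.symm⟩
        exact hxB this.1
    have hsum : ∑ l : Fin n, (∑ i, if x - g i ∈ C i ∧ ms i = l then 1 else 0) =
        (∑ i, if x - g i ∈ C i then 1 else 0) := by
      rw [Finset.sum_comm]
      refine Finset.sum_congr rfl fun i _ => ?_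
      by_cases h : x - g i ∈ C i <;> simp [h]
    rw [← hsum, Finset.sum_congr rfl (fun l _ => hx l)]
    by_cases h : x ∈ B <;> simp [h]
  -- equality of the cardinalities in every orbit
  have hcard : ∀ q, Nat.card {s : Sig // s ∈ RA ∧ c s = q} =
      Nat.card {s : Sig // s ∈ RB ∧ c s = q} := by
    intro q
    have := Fintype.ofFinite Sig
    let O : Finset Sig := Finset.univ.filter (fun s => s ∈ range σ ∧ c s = q)
    have eA : (Nat.card {s : Sig // s ∈ RA ∧ c s = q}) =
        ∑ s ∈ O, if s 0 (Sum.inr true) then 1 else 0 := by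
      rw [Nat.card_eq_fintype_card, Fintype.card_subtype, Finset.sum_boole, Finset.filter_filter]
      congr 1
      ext s
      simp only [Finset.mem_filter, Finset.mem_univ, true_and, RA, mem_ofPred_eq, Finset.mem_coe]
      tauto
    have eB : (Nat.card {s : Sig // s ∈ RB ∧ c s = q}) =
        ∑ s ∈ O, if s 0 (Sum.inr false) then 1 else 0 := by
      rw [Nat.card_eq_fintype_card, Fintype.card_subtype, Finset.sum_boole, Finset.filter_filter]
      congr 1
      ext s
      simp only [Finset.mem_filter, Finset.mem_univ, true_and, RB, mem_ofPred_eq, Finset.mem_coe]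
      tauto
    have fA : n * (∑ s ∈ O, if s 0 (Sum.inr true) then 1 else 0) =
        ∑ i, ∑ s ∈ O, if s 0 (Sum.inl i) then 1 else 0 := by
      rw [Finset.mul_sum, Finset.sum_comm]
      refine Finset.sum_congr rfl fun s hs => ?_
      obtain ⟨⟨x, rfl⟩, _⟩ := (Finset.mem_filter.mp hs).2
      have hx := cntA x
      have e1 : (σ x 0 (Sum.inr true)) ↔ x ∈ A := by simp [σ, E]
      have e2 : ∀ i, (σ x 0 (Sum.inl i)) ↔ x ∈ C i := by intro i; simp [σ, E]
      simp only [e1, e2, hx]
      by_cases h : x ∈ A <;> simp [h]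
    have fB : n * (∑ s ∈ O, if s 0 (Sum.inr false) then 1 else 0) =
        ∑ i, ∑ s ∈ O, if s (-gF i) (Sum.inl i) then 1 else 0 := by
      rw [Finset.mul_sum, Finset.sum_comm]
      refine Finset.sum_congr rfl fun s hs => ?_
      obtain ⟨⟨x, rfl⟩, _⟩ := (Finset.mem_filter.mp hs).2
      have hx := cntB x
      have e1 : (σ x 0 (Sum.inr false)) ↔ x ∈ B := by simp [σ, E]
      have e2 : ∀ i, (σ x (-gF i) (Sum.inl i)) ↔ x - g i ∈ C i := by
        intro i; simp [σ, E, gF, sub_eq_add_neg]
      simp only [e1, e2, hx]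
      by_cases h : x ∈ B <;> simp [h]
    have fAB : ∀ i, (∑ s ∈ O, if s 0 (Sum.inl i) then 1 else 0) =
        ∑ s ∈ O, if s (-gF i) (Sum.inl i) then (1 : ℕ) else 0 := by
      intro i
      refine Finset.sum_bij' (fun s _ => act (gF i) s) (fun s _ => act (-gF i) s) ?_ ?_ ?_ ?_ ?_
      · intro s hs
        obtain ⟨⟨x, rfl⟩, hq⟩ := (Finset.mem_filter.mp hs).2
        refine Finset.mem_filter.mpr ⟨Finset.mem_univ _, ⟨x + gF i, act_σ _ _⟩, ?_⟩
        rw [c_act, hq]
      · intro s hs
        obtain ⟨⟨x, rfl⟩, hq⟩ := (Finset.mem_filter.mp hs).2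
        refine Finset.mem_filter.mpr ⟨Finset.mem_univ _, ⟨x + (-gF i : F), act_σ _ _⟩, ?_⟩
        rw [c_act, hq]
      · intro s _
        rw [act_act, add_neg_cancel, act_zero]
      · intro s _
        rw [act_act, neg_add_cancel, act_zero]
      · intro s _
        simp only [act, add_neg_cancel]
    have hfin : n * (Nat.card {s : Sig // s ∈ RA ∧ c s = q}) =
        n * (Nat.card {s : Sig // s ∈ RB ∧ c s = q}) := by
      rw [eA, eB, fA, fB]
      exact Finset.sum_congr rfl fun i _ => fAB i
    exact Nat.eq_of_mul_eq_mul_left (by omega) hfin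
  obtain ⟨β, hβ⟩ := exists_equiv_fiber c RA RB hcard
  have hh : ∀ s : RA, ∃ h : F, (β s : Sig) = act h s := by
    intro s
    exact Quotient.exact (hβ s).symm
  choose t ht using hh
  have hRAfin : Fintype RA := Fintype.ofFinite _
  refine equidec_of_pointwise hinv (I := RA) (fun s => {x | σ x = s}) (fun s => (t s : X))
    ?_ ?_ ?_ ?_ ?_
  · intro s
    have : {x | σ x = s} = ⋂ p ∈ (Set.finite_univ (α := F × (Fin k ⊕ Bool))).toFinset,
        {x : X | (x + p.1 ∈ E p.2) ↔ (s : Sig) p.1 p.2} := by
      ext x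
      simp only [mem_ofPred_eq, Set.Finite.mem_toFinset, mem_univ, iInter_true, mem_iInter]
      constructor
      · intro h p
        rw [← h]
      · intro h
        funext f e
        exact propext (h (f, e))
    rw [this]
    refine h𝒜.biInter_mem _ ?_
    rintro ⟨f, e⟩ _
    have hsh : {x : X | x + f ∈ E e} ∈ 𝒜 := by
      have : {x : X | x + f ∈ E e} = (-(f : X)) +ᵥ E e := by
        ext x; rw [mem_vadd_iff, mem_ofPred_eq, sub_neg_eq_add]
      rw [this]
      exact hinv _ _ (hE e)
    by_cases h : (s : Sig) f e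
    · simpa only [h, iff_true] using hsh
    · simp only [h, iff_false]
      exact h𝒜.compl_mem hsh
  · rintro ⟨s, hs⟩ x hx
    have hx : σ x = s := hx
    have := hs.2
    rw [← hx] at this
    simpa [σ, E] using this
  · intro x hx
    refine ⟨⟨σ x, ⟨x, rfl⟩, by simpa [σ, E] using hx⟩, rfl, ?_⟩
    rintro ⟨s, hs⟩ hxs
    exact Subtype.ext (show s = σ x from (show σ x = s from hxs).symm)
  · rintro s x hx
    have hx : σ x = s := hx
    have h1 : σ (x + t s) = β s := by rw [act_σ, hx, ht]
    have h2 := (β s).2.2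
    rw [← h1] at h2
    have h3 : x + t s ∈ B := by simpa [σ, E] using h2
    rwa [add_comm] at h3
  · intro y hy
    have hyR : σ y ∈ RB := ⟨⟨y, rfl⟩, by simpa [σ, E] using hy⟩
    refine ⟨β.symm ⟨σ y, hyR⟩, ?_, ?_⟩
    · have h1 := ht (β.symm ⟨σ y, hyR⟩)
      rw [Equiv.apply_symm_apply] at h1
      generalize β.symm ⟨σ y, hyR⟩ = s at h1
      change σ y = act (t s) s at h1
      show σ (y - t s) = s
      have h2 : y - (t s : X) = y + ((-t s : F) : X) := by
        rw [AddSubgroup.coe_neg, sub_eq_add_neg]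
      rw [h2, act_σ, h1, act_act, add_neg_cancel, act_zero]
    · intro s hs
      have hs : σ (y - t s) = s := hs
      rw [Equiv.eq_symm_apply]
      apply Subtype.ext
      show (β s : Sig) = σ y
      rw [ht, ← hs, ← act_σ, sub_add_cancel]

end Pool.Agent.H1R3.Canc
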