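import Pool.Agent.H1R3.Canc.Defs

set_option autoImplicit false
set_option linter.unusedSimpArgs false

open scoped Pointwise
open Set Function MeasureTheory

namespace Pool.Agent.H1R3.Canc

variable {H X : Type*} [AddCommGroup H] [AddCommGroup X]

/-- The trivial extension of an algebra along an injective homomorphism. -/
def ext (j : H →+ X) (𝒜 : Set (Set H)) : Set (Set X) :=
  {E | ∀ x : X, {h | x + j h ∈ E} ∈ 𝒜}

lemma isSetAlgebra_ext (j : H →+ X) {𝒜 : Set (Set H)} (h𝒜 : IsSetAlgebra 𝒜) :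
    IsSetAlgebra (ext j 𝒜) where
  empty_mem := fun x => by simpa using h𝒜.empty_mem
  compl_mem := by
    intro E hE x
    exact h𝒜.compl_mem (hE x)
  union_mem := by
    intro E F hE hF x
    exact h𝒜.union_mem (hE x) (hF x)

lemma transInvariant_ext (j : H →+ X) (𝒜 : Set (Set H)) : TransInvariant (ext j 𝒜) := by
  intro t E hE x
  have : {h | x + j h ∈ t +ᵥ E} = {h | (x - t) + j h ∈ E} := by
    ext h
    simp only [mem_ofPred_eq, mem_vadd_iff]
    rw [show x + j h - t = x - t + j h by abel]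
  rw [this]
  exact hE _

lemma image_mem_ext (j : H →+ X) (hj : Injective j) {𝒜 : Set (Set H)} (h𝒜 : IsSetAlgebra 𝒜)
    (hinv : TransInvariant 𝒜) {C : Set H} (hC : C ∈ 𝒜) : j '' C ∈ ext j 𝒜 := by
  intro x
  by_cases hx : ∃ h₀, j h₀ = x
  · obtain ⟨h₀, rfl⟩ := hx
    have : {h | j h₀ + j h ∈ j '' C} = (-h₀) +ᵥ C := by
      ext h
      rw [mem_vadd_iff, mem_ofPred_eq, ← map_add, hj.mem_set_image, sub_neg_eq_add, add_comm]
    rw [this]
    exact hinv _ _ hC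
  · have : {h | x + j h ∈ j '' C} = ∅ := by
      ext h
      simp only [mem_ofPred_eq, mem_empty_iff_false, iff_false]
      rintro ⟨c, _, hc⟩
      apply hx
      exact ⟨c - h, by rw [map_sub, hc]; abel⟩
    rw [this]
    exact h𝒜.empty_mem

lemma image_vadd' (j : H →+ X) (g : H) (C : Set H) : j '' (g +ᵥ C) = j g +ᵥ (j '' C) := by
  ext x
  constructor
  · rintro ⟨_, ⟨c, hc, rfl⟩, rfl⟩
    exact ⟨j c, ⟨c, hc, rfl⟩, by simp⟩
  · rintro ⟨_, ⟨c, hc, rfl⟩, rfl⟩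
    exact ⟨g + c, ⟨c, hc, rfl⟩, by simp⟩

lemma mulEquidec_image (j : H →+ X) (hj : Injective j) {𝒜 : Set (Set H)} (h𝒜 : IsSetAlgebra 𝒜)
    (hinv : TransInvariant 𝒜) {n : ℕ} {A B : Set H} (h : MulEquidec 𝒜 n A B) :
    MulEquidec (ext j 𝒜) n (j '' A) (j '' B) := by
  obtain ⟨k, C, g, js, ms, h1, h2, h3, h4, h5, h6⟩ := h
  have hprod : ∀ (E : Set H) (S : Set (Fin n)),
      (j '' E) ×ˢ S = (fun p : H × Fin n => (j p.1, p.2)) '' (E ×ˢ S) := by
    intro E S
    ext ⟨x, l⟩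
    constructor
    · rintro ⟨⟨e, he, rfl⟩, hl⟩
      exact ⟨(e, l), ⟨he, hl⟩, rfl⟩
    · rintro ⟨⟨e, l'⟩, ⟨he, hl⟩, heq⟩
      simp only [Prod.mk.injEq] at heq
      obtain ⟨rfl, rfl⟩ := heq
      exact ⟨⟨e, he, rfl⟩, hl⟩
  have hinj : Injective (fun p : H × Fin n => (j p.1, p.2)) := by
    rintro ⟨a, b⟩ ⟨c, d⟩ h
    simp only [Prod.mk.injEq] at h
    exact Prod.ext (hj h.1) h.2
  refine ⟨k, fun i => j '' (C i), fun i => j (g i), js, ms, ?_, ?_, ?_, ?_, ?_, ?_⟩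
  · exact fun i => image_mem_ext j hj h𝒜 hinv (h1 i)
  · intro i
    rw [← image_vadd']
    exact image_mem_ext j hj h𝒜 hinv (h2 i)
  · intro a b hab
    simp only [Function.onFun, hprod]
    exact (Set.disjoint_image_iff hinj).mpr (h3 hab)
  · simp only [hprod, ← image_iUnion, h4]
  · intro a b hab
    simp only [Function.onFun, ← image_vadd', hprod]
    exact (Set.disjoint_image_iff hinj).mpr (h5 hab)
  · simp only [← image_vadd', hprod, ← image_iUnion, h6]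

lemma equidec_of_image (j : H →+ X) (hj : Injective j) {𝒜 : Set (Set H)}
    {A B : Set H} (h : Equidec (ext j 𝒜) (j '' A) (j '' B)) : Equidec 𝒜 A B := by
  classical
  obtain ⟨k, C, g, h1, h2, h3, h4, h5, h6⟩ := h
  -- pull back the translations
  have hg : ∀ i, ∃ g' : H, j ⁻¹' (g i +ᵥ C i) = g' +ᵥ (j ⁻¹' (C i)) := by
    intro i
    by_cases hne : (C i).Nonempty
    · obtain ⟨c, hc⟩ := hne
      have hc' : c ∈ j '' A := by rw [← h4]; exact mem_iUnion.mpr ⟨i, hc⟩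
      have hc'' : g i + c ∈ j '' B := by
        rw [← h6]; exact mem_iUnion.mpr ⟨i, ⟨c, hc, rfl⟩⟩
      obtain ⟨a, _, rfl⟩ := hc'
      obtain ⟨b, _, hb⟩ := hc''
      refine ⟨b - a, ?_⟩
      have : g i = j (b - a) := by rw [map_sub, hb]; abel
      ext h
      rw [mem_vadd_iff, mem_preimage, mem_preimage, mem_vadd_iff, this, map_sub j h]
    · rw [not_nonempty_iff_eq_empty] at hne
      exact ⟨0, by simp [hne]⟩
  choose g' hg' using hg
  have hpre : ∀ E ∈ ext j 𝒜, j ⁻¹' E ∈ 𝒜 := by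
    intro E hE
    have := hE 0
    simp only [zero_add] at this
    exact this
  refine ⟨k, fun i => j ⁻¹' (C i), g', fun i => hpre _ (h1 i), fun i => ?_, ?_, ?_, ?_, ?_⟩
  · rw [← hg']; exact hpre _ (h2 i)
  · intro a b hab
    exact (h3 hab).preimage j
  · rw [← preimage_iUnion, h4, preimage_image_eq _ hj]
  · intro a b hab
    simp only [Function.onFun, ← hg']
    exact (h5 hab).preimage j
  · simp only [← hg']
    rw [← preimage_iUnion, h6, preimage_image_eq _ hj]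

/-- Failure of cancellation passes from a subgroup to the whole group. -/
lemma exists_of_injective (j : H →+ X) (hj : Injective j) {𝒜 : Set (Set H)}
    (h𝒜 : IsSetAlgebra 𝒜) (hinv : TransInvariant 𝒜) {n : ℕ} {A B : Set H}
    (hA : A ∈ 𝒜) (hB : B ∈ 𝒜) (h : MulEquidec 𝒜 n A B) (hne : ¬ Equidec 𝒜 A B) :
    ∃ 𝒜' : Set (Set X), IsSetAlgebra 𝒜' ∧ TransInvariant 𝒜' ∧ ∃ A' ∈ 𝒜', ∃ B' ∈ 𝒜',
      MulEquidec 𝒜' n A' B' ∧ ¬ Equidec 𝒜' A' B' :=
  ⟨ext j 𝒜, isSetAlgebra_ext j h𝒜, transInvariant_ext j 𝒜, j '' A,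
    image_mem_ext j hj h𝒜 hinv hA, j '' B, image_mem_ext j hj h𝒜 hinv hB,
    mulEquidec_image j hj h𝒜 hinv h, fun h' => hne (equidec_of_image j hj h')⟩

end Pool.Agent.H1R3.Canc
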