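import Pool.Agent.H1R3.Canc.Defs

set_option autoImplicit false

open scoped Pointwise
open Set Function MeasureTheory

namespace Pool.Agent.H1R3.Canc

/-- The union of the squares `[4·4^m, 6·4^m) × [0, 2·4^m)`. -/
def W (x y : ℤ) : Prop := ∃ m : ℕ, 4 * 4 ^ m ≤ x ∧ x < 6 * 4 ^ m ∧ 0 ≤ y ∧ y < 2 * 4 ^ m

/-- The patterns of `W` of radius `r` around `(x,y)` and `(x',y')` agree up to a global flip. -/
def Sim (r x y x' y' : ℤ) : Prop :=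
  (∀ u v : ℤ, |u| ≤ r → |v| ≤ r → (W (x + u) (y + v) ↔ W (x' + u) (y' + v))) ∨
  (∀ u v : ℤ, |u| ≤ r → |v| ≤ r → (W (x + u) (y + v) ↔ ¬ W (x' + u) (y' + v)))

/-- Sets of `ℤ³` that are locally determined by `W` up to a global flip. -/
def Loc (r : ℤ) (E : Set (ℤ × ℤ × ℤ)) : Prop :=
  ∀ x y x' y' z : ℤ, Sim r x y x' y' → ((x, y, z) ∈ E ↔ (x', y', z) ∈ E)

/-- The algebra on `ℤ³`. -/
def Alg : Set (Set (ℤ × ℤ × ℤ)) := {E | ∃ r : ℤ, 0 ≤ r ∧ Loc r E}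

lemma Sim.mono {r s x y x' y' : ℤ} (h : r ≤ s) (hs : Sim s x y x' y') : Sim r x y x' y' := by
  rcases hs with hs | hs
  · exact Or.inl fun u v hu hv => hs u v (hu.trans h) (hv.trans h)
  · exact Or.inr fun u v hu hv => hs u v (hu.trans h) (hv.trans h)

lemma Loc.mono {r s : ℤ} (h : r ≤ s) {E : Set (ℤ × ℤ × ℤ)} (hE : Loc r E) : Loc s E :=
  fun x y x' y' z hs => hE x y x' y' z (hs.mono h)

lemma Sim.shift {r a b x y x' y' : ℤ} (hs : Sim (r + |a| + |b|) x y x' y') :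
    Sim r (x + a) (y + b) (x' + a) (y' + b) := by
  have ha := abs_nonneg a
  have hb := abs_nonneg b
  rcases hs with hs | hs
  · refine Or.inl fun u v hu hv => ?_
    have := hs (a + u) (b + v) ((abs_add_le _ _).trans (by linarith))
      ((abs_add_le _ _).trans (by linarith))
    simpa [add_assoc] using this
  · refine Or.inr fun u v hu hv => ?_
    have := hs (a + u) (b + v) ((abs_add_le _ _).trans (by linarith))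
      ((abs_add_le _ _).trans (by linarith))
    simpa [add_assoc] using this

lemma isSetAlgebra_Alg : IsSetAlgebra Alg where
  empty_mem := ⟨0, le_rfl, fun _ _ _ _ _ _ => by simp⟩
  compl_mem := by
    rintro E ⟨r, hr, hE⟩
    exact ⟨r, hr, fun x y x' y' z h => by
      rw [mem_compl_iff, mem_compl_iff, hE x y x' y' z h]⟩
  union_mem := by
    rintro E F ⟨r, hr, hE⟩ ⟨s, hs, hF⟩
    refine ⟨max r s, hr.trans (le_max_left _ _), fun x y x' y' z h => ?_⟩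
    rw [mem_union, mem_union, hE.mono (le_max_left _ _) x y x' y' z h,
      hF.mono (le_max_right _ _) x y x' y' z h]

lemma transInvariant_Alg : TransInvariant Alg := by
  rintro ⟨a, b, c⟩ E ⟨r, hr, hE⟩
  refine ⟨r + |a| + |b|, by positivity, fun x y x' y' z h => ?_⟩
  rw [mem_vadd_iff, mem_vadd_iff]
  have h' : Sim (r + |(-a)| + |(-b)|) x y x' y' := by simpa using h
  have := hE _ _ _ _ (z - c) h'.shift
  simpa [sub_eq_add_neg] using this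

/-! ### The sets -/

/-- horizontal wall segments -/
def U (x y : ℤ) : Prop := ¬ (W x y ↔ W x (y + 1))
/-- vertical wall segments -/
def V (x y : ℤ) : Prop := ¬ (W x y ↔ W (x + 1) y)
/-- upper right corners -/
def A (x y : ℤ) : Prop :=
  ¬ (W x y ↔ W (x + 1) y) ∧ (W (x + 1) y ↔ W x (y + 1)) ∧ (W (x + 1) y ↔ W (x + 1) (y + 1))
/-- lower left corners -/
def B (x y : ℤ) : Prop :=
  ¬ (W (x + 1) (y + 1) ↔ W x y) ∧ (W x y ↔ W (x + 1) y) ∧ (W x y ↔ W x (y + 1))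

/-- `A' = A × {0} ∪ U × {1} ∪ V × {2}` -/
def A' : Set (ℤ × ℤ × ℤ) :=
  {q | (q.2.2 = 0 ∧ A q.1 q.2.1) ∨ (q.2.2 = 1 ∧ U q.1 q.2.1) ∨ (q.2.2 = 2 ∧ V q.1 q.2.1)}
/-- `B' = B × {0} ∪ U × {1} ∪ V × {2}` -/
def B' : Set (ℤ × ℤ × ℤ) :=
  {q | (q.2.2 = 0 ∧ B q.1 q.2.1) ∨ (q.2.2 = 1 ∧ U q.1 q.2.1) ∨ (q.2.2 = 2 ∧ V q.1 q.2.1)}

/-- Boolean combinations of `W` at the nine neighbours, on a given level. -/
lemma mem_Alg_of_pattern (E : Set (ℤ × ℤ × ℤ))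
    (h : ∀ x y x' y' z, Sim 1 x y x' y' → ((x, y, z) ∈ E ↔ (x', y', z) ∈ E)) : E ∈ Alg :=
  ⟨1, by norm_num, h⟩

/-- the ten pieces -/
def C : Fin 10 → Set (ℤ × ℤ × ℤ)
  | 0 => {q | q.2.2 = 1 ∧ U q.1 q.2.1}
  | 1 => {q | q.2.2 = 2 ∧ V q.1 q.2.1}
  | 2 => {q | q.2.2 = 0 ∧ A q.1 q.2.1}
  | 3 => {q | q.2.2 = 0 ∧ A q.1 q.2.1}
  | 4 => {q | q.2.2 = 1 ∧ U q.1 q.2.1 ∧ U (q.1 - 1) q.2.1}
  | 5 => {q | q.2.2 = 1 ∧ U q.1 q.2.1 ∧ ¬ U (q.1 - 1) q.2.1 ∧ V (q.1 - 1) q.2.1}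
  | 6 => {q | q.2.2 = 1 ∧ U q.1 q.2.1 ∧ ¬ U (q.1 - 1) q.2.1 ∧ ¬ V (q.1 - 1) q.2.1}
  | 7 => {q | q.2.2 = 2 ∧ V q.1 q.2.1 ∧ V q.1 (q.2.1 - 1)}
  | 8 => {q | q.2.2 = 2 ∧ V q.1 q.2.1 ∧ ¬ V q.1 (q.2.1 - 1) ∧ U q.1 (q.2.1 - 1)}
  | 9 => {q | q.2.2 = 2 ∧ V q.1 q.2.1 ∧ ¬ V q.1 (q.2.1 - 1) ∧ ¬ U q.1 (q.2.1 - 1)}

/-- source levels -/
def js : Fin 10 → Fin 2 := ![0, 0, 0, 1, 1, 1, 1, 1, 1, 1]
/-- target levels -/
def ms : Fin 10 → Fin 2 := ![0, 0, 1, 1, 1, 1, 0, 1, 1, 1]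
/-- translations -/
def gs : Fin 10 → ℤ × ℤ × ℤ :=
  ![(0, 0, 0), (0, 0, 0), (0, 0, 1), (0, 0, 2), (-1, 0, 0), (-1, 0, 1), (-1, 0, -1),
    (0, -1, 0), (0, -1, -1), (0, -1, -2)]

end Pool.Agent.H1R3.Canc
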